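import Pool.Agent.H61.KV.TF

/-!
# Module NFS of the Kuiper board KV
-/

open Topology Set
open Pool.Agent.H59 Pool.Agent.H64.LB Pool.Agent.H61.KU
open scoped unitInterval
open Pool.Agent.H61.KV

namespace Pool.Agent.H5.KV.NFS

theorem mem_T {m : PN 2 → F9} {T : Set F4} {g : F4 → F4} (h : Nf m T g) (a : F4) :
    a ∈ T ↔ (a, (0 : F4), (0 : ℝ)) ∈ Cn m := by
  rw [h.cn]
  constructor
  · intro ha
    exact Or.inr ⟨rfl, rfl, ha⟩
  · rintro (⟨h0, -⟩ | ⟨-, -, ha⟩)
    · exact absurd h0 (lt_irrefl _)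
    · exact ha

theorem cc {m : PN 2 → F9} {T : Set F4} {g : F4 → F4} (h : Nf m T g) (hC : IsCC (Cn m)) :
    IsCC T := by
  refine ⟨?_, ?_, ?_, ?_, ?_⟩
  · rw [mem_T h]; exact hC.zero
  · intro p hp q hq
    rw [mem_T h] at hp hq ⊢
    have := hC.add _ hp _ hq
    simpa using this
  · intro c hc p hp
    rw [mem_T h] at hp ⊢
    have := hC.smul c hc _ hp
    simpa using this
  · have hcont : Continuous (fun a : F4 => ((a, (0 : F4), (0 : ℝ)) : F9)) := by fun_prop
    have h1 := hC.closed.preimage hcont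
    have h2 : (fun a : F4 => ((a, (0 : F4), (0 : ℝ)) : F9)) ⁻¹' Cn m = T := by
      ext a
      exact (mem_T h a).symm
    rwa [h2] at h1
  · obtain ⟨e, he⟩ := hC.pos
    refine ⟨e.comp (LinearMap.inl ℝ F4 (F4 × ℝ)), ?_⟩
    intro p hp hp0
    rw [mem_T h] at hp
    refine he _ hp ?_
    intro h0
    exact hp0 (congrArg Prod.fst h0)

theorem cvx {m : PN 2 → F9} {T : Set F4} {g : F4 → F4} (h : Nf m T g) (hC : IsCC (Cn m))
    (u v : F4) (c : ℝ) (h0 : 0 ≤ c) (h1 : c ≤ 1) :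
    c • g u + (1 - c) • g v - g (c • u + (1 - c) • v) ∈ T := by
  have hγ : ∀ u : F4, ((g u, u, (1 : ℝ)) : F9) ∈ Cn m := by
    intro u
    rw [h.cn]
    refine Or.inl ⟨one_pos, ?_⟩
    rw [inv_one, one_smul, one_smul, sub_self]
    exact (cc h hC).zero
  have h2 := hC.add _ (hC.smul c h0 _ (hγ u)) _ (hC.smul (1 - c) (by linarith) _ (hγ v))
  have h3 : c • ((g u, u, (1 : ℝ)) : F9) + (1 - c) • ((g v, v, (1 : ℝ)) : F9) =
      (c • g u + (1 - c) • g v, c • u + (1 - c) • v, (1 : ℝ)) := by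
    refine Prod.ext rfl (Prod.ext rfl ?_)
    change c • (1 : ℝ) + (1 - c) • (1 : ℝ) = 1
    simp
  rw [h3, h.cn] at h2
  rcases h2 with ⟨-, h4⟩ | ⟨h4, -⟩
  · rwa [inv_one, one_smul, one_smul] at h4
  · exact absurd h4 one_ne_zero

theorem comp_cont {T : Set F4} {g : F4 → F4}
    (hcv : ∀ (u v : F4) (c : ℝ), 0 ≤ c → c ≤ 1 →
      c • g u + (1 - c) • g v - g (c • u + (1 - c) • v) ∈ T) (ζ : F4 →ₗ[ℝ] ℝ)
    (hζ : ∀ t ∈ T, 0 ≤ ζ t) : Continuous fun u => ζ (g u) := by
  have h1 : ConvexOn ℝ univ fun u => ζ (g u) := by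
    refine ⟨convex_univ, ?_⟩
    intro u _ v _ a b ha hb hab
    have hb' : b = 1 - a := by linarith
    subst hb'
    have h2 := hζ _ (hcv u v a ha (by linarith))
    rw [map_sub, map_add, map_smul, map_smul] at h2
    linarith
  exact (continuousOn_univ.1 (h1.continuousOn isOpen_univ))

theorem dom {T : Set F4} (hT : IsCC T) (e ζ : F4 →ₗ[ℝ] ℝ) (he : ∀ p ∈ T, p ≠ 0 → 0 < e p) :
    ∃ M : ℝ, 0 ≤ M ∧ ∀ t ∈ T, 0 ≤ M * e t + ζ t := by
  by_cases hne : (T ∩ Metric.sphere (0 : F4) 1).Nonempty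
  · have hcomp : IsCompact (T ∩ Metric.sphere (0 : F4) 1) :=
      (isCompact_sphere (0 : F4) 1).inter_left hT.closed
    have hec : Continuous e := e.continuous_of_finiteDimensional
    have hζc : Continuous ζ := ζ.continuous_of_finiteDimensional
    obtain ⟨x, hx, hxm⟩ := hcomp.exists_isMinOn hne hec.continuousOn
    obtain ⟨y, hy, hym⟩ := hcomp.exists_isMinOn hne hζc.continuousOn
    have hx0 : 0 < e x := by
      apply he x hx.1
      intro h0
      have := hx.2
      rw [h0] at this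
      simp at this
    refine ⟨|ζ y| / e x, by positivity, ?_⟩
    intro t ht
    by_cases ht0 : t = 0
    · rw [ht0, map_zero, map_zero]; simp
    have hnt : 0 < ‖t‖ := norm_pos_iff.2 ht0
    have hmem : (‖t‖⁻¹ • t) ∈ T ∩ Metric.sphere (0 : F4) 1 := by
      refine ⟨hT.smul _ (by positivity) _ ht, ?_⟩
      rw [mem_sphere_zero_iff_norm, norm_smul, norm_inv, norm_norm, inv_mul_cancel₀ hnt.ne']
    have h1 : e x ≤ e (‖t‖⁻¹ • t) := hxm hmem
    have h2 : ζ y ≤ ζ (‖t‖⁻¹ • t) := hym hmem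
    have h3 : |ζ y| ≤ |ζ y| / e x * e (‖t‖⁻¹ • t) := by
      calc |ζ y| = |ζ y| / e x * e x := by field_simp
        _ ≤ |ζ y| / e x * e (‖t‖⁻¹ • t) := mul_le_mul_of_nonneg_left h1 (by positivity)
    have h4 : 0 ≤ |ζ y| / e x * e (‖t‖⁻¹ • t) + ζ (‖t‖⁻¹ • t) := by
      have := neg_abs_le (ζ y)
      linarith
    rw [map_smul, map_smul, smul_eq_mul, smul_eq_mul] at h4
    have h5 : |ζ y| / e x * (‖t‖⁻¹ * e t) + ‖t‖⁻¹ * ζ t =
        ‖t‖⁻¹ * (|ζ y| / e x * e t + ζ t) := by ring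
    rw [h5] at h4
    exact (mul_nonneg_iff_of_pos_left (by positivity)).1 h4
  · refine ⟨0, le_rfl, ?_⟩
    intro t ht
    by_cases ht0 : t = 0
    · rw [ht0, map_zero, map_zero]; simp
    exfalso
    apply hne
    have hnt : 0 < ‖t‖ := norm_pos_iff.2 ht0
    refine ⟨‖t‖⁻¹ • t, hT.smul _ (by positivity) _ ht, ?_⟩
    rw [mem_sphere_zero_iff_norm, norm_smul, norm_inv, norm_norm, inv_mul_cancel₀ hnt.ne']

theorem cont {T : Set F4} {g : F4 → F4} (hT : IsCC T)
    (hcv : ∀ (u v : F4) (c : ℝ), 0 ≤ c → c ≤ 1 →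
      c • g u + (1 - c) • g v - g (c • u + (1 - c) • v) ∈ T) : Continuous g := by
  obtain ⟨e, he⟩ := hT.pos
  have he' : ∀ t ∈ T, 0 ≤ e t := by
    intro t ht
    by_cases h0 : t = 0
    · rw [h0, map_zero]
    · exact (he t ht h0).le
  have hall : ∀ ζ : F4 →ₗ[ℝ] ℝ, Continuous fun u => ζ (g u) := by
    intro ζ
    obtain ⟨M, hM, hMt⟩ := dom hT e ζ he
    have h1 := comp_cont hcv (M • e + ζ) (fun t ht => hMt t ht)
    have h2 := comp_cont hcv e he'
    have h3 : (fun u => ζ (g u)) = fun u => (M • e + ζ) (g u) - M * e (g u) := by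
      funext u
      change ζ (g u) = M * e (g u) + ζ (g u) - M * e (g u)
      ring
    rw [h3]
    exact h1.sub (continuous_const.mul h2)
  have h4 : Continuous fun u => (WithLp.ofLp (g u) : Fin 4 → ℝ) := by
    rw [continuous_pi_iff]
    intro i
    exact hall (EuclideanSpace.proj i : F4 →L[ℝ] ℝ).toLinearMap
  have h5 := (PiLp.continuous_toLp 2 (fun _ : Fin 4 => ℝ)).comp h4
  exact h5

theorem add_int {T : Set F4} (hT : IsCC T) {a b : F4} (ha : a ∈ interior T) (hb : b ∈ T) :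
    a + b ∈ interior T := by
  have h1 : (fun x : F4 => x + b) '' interior T ⊆ interior T := by
    apply interior_maximal
    · rintro _ ⟨x, hx, rfl⟩
      exact hT.add _ (interior_subset hx) _ hb
    · exact (Homeomorph.addRight b).isOpenMap _ isOpen_interior
  exact h1 ⟨a, ha, rfl⟩

theorem smul_int {T : Set F4} (hT : IsCC T) {a : F4} {c : ℝ} (hc : 0 < c)
    (ha : c • a ∈ interior T) : a ∈ interior T := by
  have h1 : (fun x : F4 => c⁻¹ • x) '' interior T ⊆ interior T := by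
    apply interior_maximal
    · rintro _ ⟨x, hx, rfl⟩
      exact hT.smul _ (by positivity) _ (interior_subset hx)
    · exact (Homeomorph.smulOfNeZero c⁻¹ (inv_ne_zero hc.ne')).isOpenMap _ isOpen_interior
  have h2 := h1 ⟨c • a, ha, rfl⟩
  change c⁻¹ • (c • a) ∈ interior T at h2
  rwa [smul_smul, inv_mul_cancel₀ hc.ne', one_smul] at h2

theorem zero_not_int {T : Set F4} (hT : IsCC T) {t : F4} (ht : t ∈ T) (ht0 : t ≠ 0) :
    (0 : F4) ∉ interior T := by
  intro h0
  obtain ⟨e, he⟩ := hT.pos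
  have h1 : Filter.Tendsto (fun ε : ℝ => -(ε • t)) (𝓝 0) (𝓝 (0 : F4)) := by
    have : Continuous (fun ε : ℝ => -(ε • t)) := by fun_prop
    have h2 := this.tendsto 0
    simpa using h2
  obtain ⟨ε, hε, hb⟩ := Metric.eventually_nhds_iff.1
    (h1.eventually (mem_interior_iff_mem_nhds.1 h0))
  have h3 := @hb (ε / 2) (by
    rw [dist_zero_right, Real.norm_eq_abs, abs_of_pos (by positivity)]; linarith)
  have h4 : -((ε / 2) • t) ≠ 0 := by
    rw [neg_ne_zero]
    exact smul_ne_zero (by positivity) ht0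
  have h5 := he _ h3 h4
  have h6 := he _ ht ht0
  rw [map_neg, map_smul, smul_eq_mul] at h5
  nlinarith

theorem pf_NFS (h2 : T_CNC) (h3 : T_EFR) : T_NFS := by
  intro m T g h
  obtain ⟨hC, -⟩ := h2 F9 m h.cfg
  have hT := cc h hC
  refine ⟨⟨hT, ?_, ?_⟩, cont hT (cvx h hC), cvx h hC⟩
  · obtain ⟨a, ha, -⟩ := h.ms
    exact ⟨a, ha⟩
  · intro s hs t ht ht0 hst
    have hq : (((s + t : F4), (0 : F4), (0 : ℝ)) : F9) ∈ Cn m := by
      rw [← mem_T h]
      exact hT.add _ hs _ ht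
    have hsub : Fc (Cn m) (((s + t : F4), (0 : F4), (0 : ℝ)) : F9) ⊆ Mh m := by
      rintro ⟨a, u, ρ⟩ ⟨hr, c, hc, hcr⟩
      have hcr' : (((c • (s + t) - a : F4), (-u : F4), (-ρ : ℝ)) : F9) ∈ Cn m := by
        have h4 : (((c • (s + t) - a : F4), (-u : F4), (-ρ : ℝ)) : F9) =
            c • (((s + t : F4), (0 : F4), (0 : ℝ)) : F9) - (a, u, ρ) := by
          refine Prod.ext rfl (Prod.ext ?_ ?_)
          · change -u = c • (0 : F4) - u
            simp
          · change -ρ = c • (0 : ℝ) - ρ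
            simp
        rw [h4]; exact hcr
      rw [h.cn] at hr hcr'
      rcases hr with ⟨h5, -⟩ | ⟨h5, h6, h7⟩
      · rcases hcr' with ⟨h8, -⟩ | ⟨h8, -⟩
        · linarith
        · linarith
      · subst h5 h6
        rcases hcr' with ⟨h8, -⟩ | ⟨-, -, h9⟩
        · simp at h8
        · rw [h.mh]
          refine Or.inr ⟨rfl, rfl, h7, ?_⟩
          intro hai
          have h10 := add_int hT hai h9
          rw [add_sub_cancel] at h10
          rcases eq_or_lt_of_le hc with h11 | h11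
          · rw [← h11, zero_smul] at h10
            exact zero_not_int hT ht ht0 h10
          · exact hst (smul_int hT h11 h10)
    have h4 := h3 F9 m h.cfg h.nsg _ hq hsub
    obtain ⟨c₁, h5⟩ := h4 ((s, (0 : F4), (0 : ℝ)) : F9) ⟨(mem_T h s).1 hs, 1, zero_le_one, by
      have : (1 : ℝ) • (((s + t : F4), (0 : F4), (0 : ℝ)) : F9) - (s, 0, 0) = (t, 0, 0) := by
        rw [one_smul]
        refine Prod.ext ?_ (Prod.ext ?_ ?_)
        · change s + t - s = t
          abel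
        · change (0 : F4) - 0 = 0
          simp
        · change (0 : ℝ) - 0 = 0
          simp
      rw [this]
      exact (mem_T h t).1 ht⟩
    obtain ⟨c₂, h6⟩ := h4 ((t, (0 : F4), (0 : ℝ)) : F9) ⟨(mem_T h t).1 ht, 1, zero_le_one, by
      have : (1 : ℝ) • (((s + t : F4), (0 : F4), (0 : ℝ)) : F9) - (t, 0, 0) = (s, 0, 0) := by
        rw [one_smul]
        refine Prod.ext ?_ (Prod.ext ?_ ?_)
        · change s + t - t = s
          abel
        · change (0 : F4) - 0 = 0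
          simp
        · change (0 : ℝ) - 0 = 0
          simp
      rw [this]
      exact (mem_T h s).1 hs⟩
    have h7 : s = c₁ • (s + t) := congrArg Prod.fst h5
    have h8 : t = c₂ • (s + t) := congrArg Prod.fst h6
    have hc₂ : c₂ ≠ 0 := by
      intro h0
      rw [h0, zero_smul] at h8
      exact ht0 h8
    refine ⟨c₁ / c₂, ?_⟩
    have h9 : s + t = c₂⁻¹ • t := by
      conv_rhs => rw [h8]
      rw [smul_smul, inv_mul_cancel₀ hc₂, one_smul]
    conv_lhs => rw [h7]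
    rw [h9, smul_smul, div_eq_mul_inv]

end Pool.Agent.H5.KV.NFS
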