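import Pool.Agent.H61.KV.TS

/-!
# Module PRC of the Kuiper board KV
-/

open Topology Set Filter
open Pool.Agent.H61.KV

namespace Pool.Agent.H5.KV.PRC

theorem isCC_convex {C : Set (E4 × E5)} (hC : IsCC C) : Convex ℝ C := by
  intro v hv w hw a b ha hb _
  exact hC.add _ (hC.smul a ha _ hv) _ (hC.smul b hb _ hw)

/-- a bounded selection near an interior point of the base -/
theorem bdd_sel {C : Set (E4 × E5)} (hC : IsCC C) {b₀ : E5} (hb : b₀ ∈ interior (Bs C)) :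
    ∃ r : ℝ, 0 < r ∧ ∃ N : ℝ, 0 ≤ N ∧ ∀ c ∈ Metric.closedBall b₀ r, ∃ a, (a, c) ∈ C ∧ ‖a‖ ≤ N := by
  obtain ⟨B, hB1, hB2⟩ := exists_mem_interior_convexHull_affineBasis
    (mem_interior_iff_mem_nhds.1 hb)
  have hBs : ∀ i, ∃ a, (a, B i) ∈ C := fun i => hB2 (subset_convexHull ℝ _ ⟨i, rfl⟩)
  choose a ha using hBs
  set D : Set (E4 × E5) := convexHull ℝ (range fun i => (a i, B i)) with hD
  have hDC : D ⊆ C := by
    apply convexHull_min _ (isCC_convex hC)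
    rintro _ ⟨i, rfl⟩
    exact ha i
  have hDcomp : IsCompact D := (Set.finite_range _).isCompact_convexHull (𝕜 := ℝ)
  have hDpr : Prod.snd '' D = convexHull ℝ (range B) := by
    have h1 := (LinearMap.snd ℝ E4 E5).image_convexHull (range fun i => (a i, B i))
    have h2 : (LinearMap.snd ℝ E4 E5) '' (range fun i => (a i, B i)) = range B := by
      rw [← Set.range_comp]
      rfl
    rw [h2] at h1
    exact h1
  obtain ⟨N, hN⟩ := hDcomp.isBounded.exists_norm_le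
  obtain ⟨r, hr, hball⟩ := Metric.nhds_basis_closedBall.mem_iff.1
    (mem_interior_iff_mem_nhds.1 hB1)
  refine ⟨r, hr, max N 0, le_max_right _ _, ?_⟩
  intro c hc
  have h3 := hball hc
  rw [← hDpr] at h3
  obtain ⟨⟨a', c'⟩, h4, h5⟩ := h3
  change c' = c at h5
  subst h5
  refine ⟨a', hDC h4, ?_⟩
  exact ((norm_fst_le (a', c')).trans (hN _ h4)).trans (le_max_left _ _)

/-- lower semicontinuity of the slices -/
theorem lsc {C : Set (E4 × E5)} (hC : IsCC C) {b₀ : E5} {r N : ℝ} (hr : 0 < r)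
    (hN : ∀ c ∈ Metric.closedBall b₀ r, ∃ a, (a, c) ∈ C ∧ ‖a‖ ≤ N) {a : E4} (ha : (a, b₀) ∈ C)
    {b : E5} (hb : ‖b - b₀‖ ≤ r) :
    ∃ a', (a', b) ∈ C ∧ ‖a' - a‖ ≤ ‖b - b₀‖ / r * (N + ‖a‖) := by
  by_cases hbb : b = b₀
  · subst hbb
    exact ⟨a, ha, by simp⟩
  have hpos : 0 < ‖b - b₀‖ := norm_pos_iff.2 (sub_ne_zero.2 hbb)
  set l : ℝ := ‖b - b₀‖ / r with hl
  have hl0 : 0 < l := by positivity
  have hl1 : l ≤ 1 := (div_le_one hr).2 hb
  obtain ⟨a', ha', hna⟩ := hN (b₀ + (1 / l) • (b - b₀)) (by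
    rw [Metric.mem_closedBall, dist_eq_norm, add_sub_cancel_left, norm_smul, Real.norm_eq_abs,
      abs_of_pos (by positivity), hl]
    apply le_of_eq
    field_simp)
  refine ⟨(1 - l) • a + l • a', ?_, ?_⟩
  · have h1 := hC.add _ (hC.smul (1 - l) (by linarith) _ ha) _ (hC.smul l hl0.le _ ha')
    have h2 : (1 - l) • (a, b₀) + l • (a', b₀ + (1 / l) • (b - b₀)) =
        ((1 - l) • a + l • a', b) := by
      refine Prod.ext rfl ?_
      change (1 - l) • b₀ + l • (b₀ + (1 / l) • (b - b₀)) = b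
      rw [smul_add, smul_smul, mul_one_div_cancel hl0.ne', one_smul, sub_smul, one_smul]
      abel
    rwa [h2] at h1
  · have h3 : (1 - l) • a + l • a' - a = l • (a' - a) := by
      rw [sub_smul, one_smul, smul_sub]
      abel
    rw [h3, norm_smul, Real.norm_eq_abs, abs_of_pos hl0]
    apply mul_le_mul_of_nonneg_left _ hl0.le
    exact (norm_sub_le _ _).trans (by linarith)

theorem near {v y a : E4} (h : 0 ≤ inner ℝ (v - y) (a - v)) :
    ‖a - v‖ ^ 2 + ‖v - y‖ ^ 2 ≤ ‖a - y‖ ^ 2 := by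
  have h1 : a - y = (a - v) + (v - y) := by abel
  rw [h1, norm_add_sq_real, real_inner_comm]
  linarith

theorem pf_PRC : T_PRC := by
  intro C hC
  have hex : ∀ (y : E4) (b : E5), b ∈ interior (Bs C) → ∃ v, (v, b) ∈ C ∧
      ∀ a, (a, b) ∈ C → 0 ≤ inner ℝ (v - y) (a - v) := by
    intro y b hb
    have hcont : Continuous (fun a : E4 => (a, b)) := by fun_prop
    have hcl : IsClosed {a : E4 | (a, b) ∈ C} := hC.closed.preimage hcont
    have hcv : Convex ℝ {a : E4 | (a, b) ∈ C} := by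
      intro v hv w hw s t hs ht hst
      have h1 := isCC_convex hC hv hw hs ht hst
      have h2 : s • (v, b) + t • (w, b) = (s • v + t • w, b) := by
        refine Prod.ext rfl ?_
        change s • b + t • b = b
        rw [← add_smul, hst, one_smul]
      rw [h2] at h1
      exact h1
    have hne : {a : E4 | (a, b) ∈ C}.Nonempty := (interior_subset hb : b ∈ Bs C)
    obtain ⟨v, hv, hv2⟩ := exists_norm_eq_iInf_of_complete_convex hne hcl.isComplete hcv y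
    rw [norm_eq_iInf_iff_real_inner_le_zero hcv hv] at hv2
    refine ⟨v, hv, fun a ha => ?_⟩
    have h3 := hv2 a ha
    have h4 : v - y = -(y - v) := by abel
    rw [h4, inner_neg_left]
    linarith
  choose! P hP1 hP2 using hex
  refine ⟨P, fun y b hb => ⟨hP1 y b hb, hP2 y b hb⟩, ?_⟩
  rintro ⟨y₀, b₀⟩ ⟨-, hb₀⟩
  change b₀ ∈ interior (Bs C) at hb₀
  obtain ⟨r, hr, N, hN0, hN⟩ := bdd_sel hC hb₀
  have hin : ∀ᶠ w : E4 × E5 in 𝓝[univ ×ˢ interior (Bs C)] (y₀, b₀), w.2 ∈ interior (Bs C) := by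
    filter_upwards [self_mem_nhdsWithin] with w hw using hw.2
  have hcl : ∀ᶠ w : E4 × E5 in 𝓝[univ ×ˢ interior (Bs C)] (y₀, b₀), ‖w.2 - b₀‖ ≤ r := by
    have h1 : Tendsto (fun w : E4 × E5 => ‖w.2 - b₀‖) (𝓝 (y₀, b₀)) (𝓝 0) := by
      have : Continuous (fun w : E4 × E5 => ‖w.2 - b₀‖) := by fun_prop
      have h2 := this.tendsto (y₀, b₀)
      simpa using h2
    exact (h1.mono_left nhdsWithin_le_nhds).eventually (ge_mem_nhds hr)
  set g : E4 × E5 → ℝ := fun w => ‖w.2 - b₀‖ / r * (N + ‖P y₀ b₀‖) + ‖P y₀ b₀ - w.1‖ with hg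
  have hgc : Continuous g := by
    rw [hg]
    fun_prop
  have hmain : ∀ᶠ w : E4 × E5 in 𝓝[univ ×ˢ interior (Bs C)] (y₀, b₀),
      ‖P w.1 w.2 - w.1‖ ≤ g w := by
    filter_upwards [hin, hcl] with w hw1 hw2
    obtain ⟨a', ha', hna⟩ := lsc hC hr hN (hP1 y₀ b₀ hb₀) hw2
    have h1 := near (hP2 w.1 w.2 hw1 a' ha')
    have h2 : ‖P w.1 w.2 - w.1‖ ≤ ‖a' - w.1‖ := by
      apply le_of_sq_le_sq _ (norm_nonneg _)
      nlinarith [sq_nonneg ‖a' - P w.1 w.2‖]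
    have h3 : a' - w.1 = (a' - P y₀ b₀) + (P y₀ b₀ - w.1) := by abel
    refine h2.trans ?_
    rw [h3]
    exact (norm_add_le _ _).trans (by linarith)
  have hbdd : ∀ᶠ w : E4 × E5 in 𝓝[univ ×ˢ interior (Bs C)] (y₀, b₀),
      P w.1 w.2 ∈ Metric.closedBall (0 : E4) (g (y₀, b₀) + ‖y₀‖ + 1) := by
    have h1 : Continuous (fun w : E4 × E5 => g w + ‖w.1‖) := by fun_prop
    have h2 : ∀ᶠ w : E4 × E5 in 𝓝[univ ×ˢ interior (Bs C)] (y₀, b₀),
        g w + ‖w.1‖ < g (y₀, b₀) + ‖y₀‖ + 1 := by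
      have h3 := h1.tendsto (y₀, b₀)
      have h4 : g (y₀, b₀) + ‖y₀‖ < g (y₀, b₀) + ‖y₀‖ + 1 := by linarith
      exact (h3.mono_left nhdsWithin_le_nhds).eventually (Iio_mem_nhds h4)
    filter_upwards [hmain, h2] with w hw1 hw2
    rw [Metric.mem_closedBall, dist_zero_right]
    have h5 : P w.1 w.2 = (P w.1 w.2 - w.1) + w.1 := by abel
    rw [h5]
    exact (norm_add_le _ _).trans (by linarith)
  change Tendsto (fun w : E4 × E5 => P w.1 w.2) (𝓝[univ ×ˢ interior (Bs C)] (y₀, b₀))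
    (𝓝 (P y₀ b₀))
  rw [tendsto_iff_ultrafilter]
  intro U hU
  have h1 : ((U.map (fun w : E4 × E5 => P w.1 w.2) : Ultrafilter E4) : Filter E4) ≤
      𝓟 (Metric.closedBall (0 : E4) (g (y₀, b₀) + ‖y₀‖ + 1)) := by
    rw [le_principal_iff]
    exact hU hbdd
  obtain ⟨Q, -, hQ⟩ := (isCompact_closedBall (0 : E4) (g (y₀, b₀) + ‖y₀‖ + 1)).ultrafilter_le_nhds
    _ h1
  have hQt : Tendsto (fun w : E4 × E5 => P w.1 w.2) U (𝓝 Q) := hQ
  have hUn : (U : Filter (E4 × E5)) ≤ 𝓝 (y₀, b₀) := hU.trans nhdsWithin_le_nhds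
  have hfst : Tendsto (fun w : E4 × E5 => w.1) U (𝓝 y₀) :=
    (continuous_fst.tendsto (y₀, b₀)).mono_left hUn
  have hsnd : Tendsto (fun w : E4 × E5 => w.2) U (𝓝 b₀) :=
    (continuous_snd.tendsto (y₀, b₀)).mono_left hUn
  have hQC : (Q, b₀) ∈ C := by
    refine hC.closed.mem_of_tendsto (hQt.prodMk_nhds hsnd) ?_
    filter_upwards [hU hin] with w hw using hP1 w.1 w.2 hw
  have hle : ‖Q - y₀‖ ≤ g (y₀, b₀) := by
    refine le_of_tendsto_of_tendsto (hQt.sub hfst).norm ((hgc.tendsto (y₀, b₀)).mono_left hUn) ?_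
    exact hU hmain
  have hg0 : g (y₀, b₀) = ‖P y₀ b₀ - y₀‖ := by
    rw [hg]; simp
  rw [hg0] at hle
  have h2 := near (hP2 y₀ b₀ hb₀ Q hQC)
  have h3 : ‖Q - P y₀ b₀‖ ^ 2 ≤ 0 := by
    have : ‖Q - y₀‖ ^ 2 ≤ ‖P y₀ b₀ - y₀‖ ^ 2 := by gcongr
    linarith
  have h4 : ‖Q - P y₀ b₀‖ = 0 := by
    have := sq_nonneg ‖Q - P y₀ b₀‖
    have h5 : ‖Q - P y₀ b₀‖ ^ 2 = 0 := le_antisymm h3 this
    exact pow_eq_zero_iff (two_ne_zero) |>.1 h5
  have h6 : Q = P y₀ b₀ := sub_eq_zero.1 (norm_eq_zero.1 h4)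
  rwa [← h6]

end Pool.Agent.H5.KV.PRC
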