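import Pool.Agent.H61.KV.TS

/-!
# Module SPF of the Kuiper board KV
-/

open Topology Set
open Pool.Agent.H61.KV

namespace Pool.Agent.H5.KV.SPF

/-- the epigraph -/
def Epi (C : Set (E4 × E5)) (z : E4) : Set (E5 × ℝ) :=
  {w | ∃ a, (a, w.1) ∈ C ∧ inner ℝ z a ≤ w.2}

theorem epi_add {C : Set (E4 × E5)} {z : E4} (hC : IsCC C) {v w : E5 × ℝ} (hv : v ∈ Epi C z)
    (hw : w ∈ Epi C z) : v + w ∈ Epi C z := by
  obtain ⟨a, ha, ha'⟩ := hv
  obtain ⟨b, hb, hb'⟩ := hw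
  refine ⟨a + b, hC.add _ ha _ hb, ?_⟩
  rw [inner_add_right]
  exact add_le_add ha' hb'

theorem epi_smul {C : Set (E4 × E5)} {z : E4} (hC : IsCC C) {c : ℝ} (hc : 0 ≤ c) {v : E5 × ℝ}
    (hv : v ∈ Epi C z) : c • v ∈ Epi C z := by
  obtain ⟨a, ha, ha'⟩ := hv
  refine ⟨c • a, hC.smul c hc _ ha, ?_⟩
  rw [inner_smul_right]
  exact mul_le_mul_of_nonneg_left ha' hc

theorem epi_convex {C : Set (E4 × E5)} {z : E4} (hC : IsCC C) : Convex ℝ (Epi C z) := by
  intro v hv w hw a b ha hb _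
  exact epi_add hC (epi_smul hC ha hv) (epi_smul hC hb hw)

theorem mem_of_interior {S : Set E5} {b₀ v : E5} (h : b₀ ∈ interior S) :
    ∃ ε : ℝ, 0 < ε ∧ b₀ + ε • v ∈ S ∧ b₀ - ε • v ∈ S := by
  rw [mem_interior_iff_mem_nhds] at h
  have h1 : Filter.Tendsto (fun ε : ℝ => b₀ + ε • v) (𝓝 0) (𝓝 b₀) := by
    have : Continuous (fun ε : ℝ => b₀ + ε • v) := by fun_prop
    have h2 := this.tendsto 0
    simpa using h2
  have h2 : Filter.Tendsto (fun ε : ℝ => b₀ - ε • v) (𝓝 0) (𝓝 b₀) := by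
    have : Continuous (fun ε : ℝ => b₀ - ε • v) := by fun_prop
    have h2 := this.tendsto 0
    simpa using h2
  have h3 := (h1.eventually h).and (h2.eventually h)
  obtain ⟨ε, hε, hb⟩ := Metric.eventually_nhds_iff.1 h3
  refine ⟨ε / 2, by positivity, hb ?_⟩
  rw [dist_zero_right, Real.norm_eq_abs, abs_of_pos (by positivity)]
  linarith

theorem epi_int {C : Set (E4 × E5)} {z : E4} {b₀ : E5} (hC : IsCC C)
    (hb : b₀ ∈ interior (Bs C)) : (interior (Epi C z)).Nonempty := by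
  rw [(epi_convex hC).interior_nonempty_iff_affineSpan_eq_top]
  have h0 : (0 : E5 × ℝ) ∈ Epi C z := ⟨0, hC.zero, by simp⟩
  have hspan : Submodule.span ℝ (Epi C z) = ⊤ := by
    have h1 : ((0 : E5), (1 : ℝ)) ∈ Submodule.span ℝ (Epi C z) :=
      Submodule.subset_span ⟨0, hC.zero, by simp⟩
    have h2 : ∀ b ∈ Bs C, (b, (0 : ℝ)) ∈ Submodule.span ℝ (Epi C z) := by
      rintro b ⟨a, ha⟩
      have h3 : (b, inner ℝ z a) ∈ Submodule.span ℝ (Epi C z) :=
        Submodule.subset_span ⟨a, ha, le_rfl⟩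
      have h4 := Submodule.sub_mem _ h3 (Submodule.smul_mem _ (inner ℝ z a) h1)
      simpa using h4
    rw [eq_top_iff]
    rintro ⟨v, s⟩ _
    obtain ⟨ε, hε, h5, h6⟩ := mem_of_interior (v := v) hb
    have h7 := Submodule.smul_mem _ (1 / (2 * ε)) (Submodule.sub_mem _ (h2 _ h5) (h2 _ h6))
    have h8 := Submodule.add_mem _ h7 (Submodule.smul_mem _ s h1)
    have h9 : (1 / (2 * ε)) • ((b₀ + ε • v, (0 : ℝ)) - (b₀ - ε • v, (0 : ℝ))) +
        s • ((0 : E5), (1 : ℝ)) = (v, s) := by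
      refine Prod.ext ?_ ?_
      · change (1 / (2 * ε)) • ((b₀ + ε • v) - (b₀ - ε • v)) + s • (0 : E5) = v
        rw [smul_zero, add_zero, add_sub_sub_cancel, ← two_smul ℝ (ε • v), smul_smul, smul_smul]
        have : 1 / (2 * ε) * 2 * ε = 1 := by field_simp
        rw [this, one_smul]
      · change (1 / (2 * ε)) • ((0 : ℝ) - 0) + s • (1 : ℝ) = s
        simp
    rwa [h9] at h8
  rw [AffineSubspace.affineSpan_eq_top_iff_vectorSpan_eq_top_of_nonempty ℝ (E5 × ℝ) (E5 × ℝ)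
    ⟨_, h0⟩, vectorSpan_eq_span_vsub_set_right ℝ h0]
  have h10 : (fun x : E5 × ℝ => x -ᵥ (0 : E5 × ℝ)) '' Epi C z = Epi C z := by
    simp
  rw [h10, hspan]

theorem pf_SPF : T_SPF := by
  intro C z a₀ b₀ hC hb hmin
  have hcv := epi_convex (z := z) hC
  have hne := epi_int (z := z) hC hb
  have hx : (b₀, inner ℝ z a₀) ∉ interior (Epi C z) := by
    intro h
    rw [mem_interior_iff_mem_nhds] at h
    have h1 : Filter.Tendsto (fun ε : ℝ => (b₀, inner ℝ z a₀ - ε)) (𝓝 0) (𝓝 (b₀, inner ℝ z a₀)) := by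
      have : Continuous (fun ε : ℝ => (b₀, inner ℝ z a₀ - ε)) := by fun_prop
      have h2 := this.tendsto 0
      simpa using h2
    obtain ⟨ε, hε, h2⟩ := Metric.eventually_nhds_iff.1 (h1.eventually h)
    have h3 := @h2 (ε / 2) (by
      rw [dist_zero_right, Real.norm_eq_abs, abs_of_pos (by positivity)]; linarith)
    obtain ⟨a, ha, ha'⟩ := h3
    have h4 := hmin.2 a ha
    change inner ℝ z a ≤ inner ℝ z a₀ - ε / 2 at ha'
    linarith
  obtain ⟨F, hF⟩ := geometric_hahn_banach_open_point hcv.interior isOpen_interior hx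
  set x₀ : E5 × ℝ := (b₀, inner ℝ z a₀) with hx₀
  have hFc : ∀ w ∈ Epi C z, F w ≤ F x₀ := by
    intro w hw
    have h1 : w ∈ closure (interior (Epi C z)) := by
      rw [hcv.closure_interior_eq_closure_of_nonempty_interior hne]
      exact subset_closure hw
    have h2 : IsClosed {w : E5 × ℝ | F w ≤ F x₀} := isClosed_le F.continuous continuous_const
    exact closure_minimal (fun v hv => (hF v hv).le) h2 h1
  -- the two parts of the functional
  have hsplit : ∀ (b : E5) (s : ℝ), F (b, s) = F (b, 0) + s * F (0, 1) := by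
    intro b s
    have : (b, s) = (b, (0 : ℝ)) + s • ((0 : E5), (1 : ℝ)) := by
      refine Prod.ext ?_ ?_
      · change b = b + s • (0 : E5)
        simp
      · change s = 0 + s • (1 : ℝ)
        simp
    rw [this, map_add, map_smul, smul_eq_mul]
  have hx₀E : x₀ ∈ Epi C z := ⟨a₀, hmin.1, le_rfl⟩
  set c : ℝ := F (0, 1) with hc
  have hc0 : c ≤ 0 := by
    have h1 := hFc (b₀, inner ℝ z a₀ + 1) ⟨a₀, hmin.1, by
      change inner ℝ z a₀ ≤ inner ℝ z a₀ + 1
      linarith⟩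
    rw [hx₀, hsplit, hsplit b₀ (inner ℝ z a₀)] at h1
    linarith
  have hc1 : c ≠ 0 := by
    intro h0
    have hk : ∀ v : E5, F (v, 0) = 0 := by
      intro v
      obtain ⟨ε, hε, ⟨a₁, h5⟩, ⟨a₂, h6⟩⟩ := mem_of_interior (v := v) hb
      have h7 := hFc (b₀ + ε • v, inner ℝ z a₁) ⟨a₁, h5, le_rfl⟩
      have h8 := hFc (b₀ - ε • v, inner ℝ z a₂) ⟨a₂, h6, le_rfl⟩
      rw [hx₀, hsplit, hsplit b₀, h0] at h7 h8
      have h9 : F (b₀ + ε • v, (0 : ℝ)) = F (b₀, 0) + ε * F (v, 0) := by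
        have : (b₀ + ε • v, (0 : ℝ)) = (b₀, (0 : ℝ)) + ε • (v, (0 : ℝ)) := by
          refine Prod.ext rfl ?_
          change (0 : ℝ) = 0 + ε • (0 : ℝ)
          simp
        rw [this, map_add, map_smul, smul_eq_mul]
      have h10 : F (b₀ - ε • v, (0 : ℝ)) = F (b₀, 0) - ε * F (v, 0) := by
        have : (b₀ - ε • v, (0 : ℝ)) = (b₀, (0 : ℝ)) - ε • (v, (0 : ℝ)) := by
          refine Prod.ext rfl ?_
          change (0 : ℝ) = 0 - ε • (0 : ℝ)
          simp
        rw [this, map_sub, map_smul, smul_eq_mul]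
      rw [h9] at h7
      rw [h10] at h8
      have h11 : ε * F (v, 0) = 0 := by linarith
      rcases mul_eq_zero.1 h11 with h | h
      · exact absurd h hε.ne'
      · exact h
    obtain ⟨w, hw⟩ := hne
    have h1 := hF w hw
    have h2 : ∀ w : E5 × ℝ, F w = 0 := by
      rintro ⟨b, s⟩
      rw [hsplit, hk, h0]
      simp
    rw [h2, h2] at h1
    exact lt_irrefl _ h1
  have hcn : c < 0 := lt_of_le_of_ne hc0 hc1
  -- the functional
  let κ : E5 →ₗ[ℝ] ℝ := (1 / c) • (F.toLinearMap.comp (LinearMap.inl ℝ E5 ℝ))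
  have hκ : ∀ b, κ b = 1 / c * F (b, 0) := fun b => rfl
  have hmain : ∀ a b, (a, b) ∈ C → inner ℝ z a₀ + κ b₀ ≤ inner ℝ z a + κ b := by
    intro a b hab
    have h1 := hFc (b, inner ℝ z a) ⟨a, hab, le_rfl⟩
    rw [hx₀, hsplit, hsplit b₀] at h1
    have h2 : ∀ (b : E5) (s : ℝ), s + κ b = 1 / c * (F (b, 0) + s * c) := by
      intro b s
      rw [hκ]
      field_simp
      ring
    rw [h2, h2]
    exact mul_le_mul_of_nonpos_left h1 (by
      rw [one_div]
      exact (inv_lt_zero.2 hcn).le)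
  have hscale : ∀ a b, (a, b) ∈ C → ∀ t : ℝ, 0 ≤ t →
      inner ℝ z a₀ + κ b₀ ≤ t * (inner ℝ z a + κ b) := by
    intro a b hab t ht
    have h1 := hmain (t • a) (t • b) (hC.smul t ht _ hab)
    rw [inner_smul_right, map_smul, smul_eq_mul] at h1
    linarith
  have hle : inner ℝ z a₀ + κ b₀ ≤ 0 := by
    have := hscale a₀ b₀ hmin.1 0 le_rfl
    simpa using this
  have hnn : ∀ a b, (a, b) ∈ C → 0 ≤ inner ℝ z a + κ b := by
    intro a b hab
    by_contra hneg
    rw [not_le] at hneg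
    set y : ℝ := inner ℝ z a + κ b with hy
    set y₀ : ℝ := inner ℝ z a₀ + κ b₀ with hy₀
    have h1 := hscale a b hab ((y₀ - 1) / y) (div_nonneg_of_nonpos (by linarith) hneg.le)
    rw [← hy, div_mul_cancel₀ _ hneg.ne] at h1
    linarith
  exact ⟨κ, hnn, le_antisymm hle (hnn a₀ b₀ hmin.1)⟩

end Pool.Agent.H5.KV.SPF
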